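import Pool.Agent.H18.HIT.Targets

/-!
# Zariski dense orbits, row MFP: monic factors of a product of linear factors
-/

set_option autoImplicit false

open MvPolynomial
open Pool.Agent.H12.ZD (pmap v O Res DenseOrbit NoInv)
open Pool.Agent.H18.HIT

namespace Pool.Agent.H38.HIT

theorem aux {S : Type} [CommRing S] [IsDomain S] {ι : Type} [DecidableEq ι] (T : ι → S)
    (s : Finset ι) : ∀ A : Polynomial S, A.Monic →
    A ∣ ∏ a ∈ s, (Polynomial.X - Polynomial.C (T a)) →
    ∃ J : Finset ι, J ⊆ s ∧ A = ∏ a ∈ J, (Polynomial.X - Polynomial.C (T a)) := by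
  induction s using Finset.induction_on with
  | empty =>
    intro A hA hd
    rw [Finset.prod_empty] at hd
    exact ⟨∅, Finset.Subset.refl _, by
      rw [Finset.prod_empty]
      exact hA.eq_one_of_isUnit (isUnit_of_dvd_one hd)⟩
  | insert a s ha ih =>
    intro A hA hd
    rw [Finset.prod_insert ha] at hd
    have hp : Prime (Polynomial.X - Polynomial.C (T a)) := Polynomial.prime_X_sub_C (T a)
    by_cases h : (Polynomial.X - Polynomial.C (T a)) ∣ A
    · obtain ⟨A', rfl⟩ := h
      have hA' : A'.Monic := (Polynomial.monic_X_sub_C (T a)).of_mul_monic_left hA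
      have hd' := (mul_dvd_mul_iff_left hp.ne_zero).1 hd
      obtain ⟨J, hJ, hJe⟩ := ih A' hA' hd'
      refine ⟨insert a J, Finset.insert_subset_insert a hJ, ?_⟩
      rw [Finset.prod_insert (fun h => ha (hJ h)), ← hJe]
    · obtain ⟨B, hB⟩ := hd
      have h2 : (Polynomial.X - Polynomial.C (T a)) ∣ A * B := ⟨_, hB.symm⟩
      obtain ⟨B', rfl⟩ := (hp.dvd_or_dvd h2).resolve_left h
      have h3 : ∏ a ∈ s, (Polynomial.X - Polynomial.C (T a)) = A * B' := by
        refine mul_left_cancel₀ hp.ne_zero (hB.trans ?_)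
        ring
      obtain ⟨J, hJ, hJe⟩ := ih A hA ⟨B', h3⟩
      exact ⟨J, hJ.trans (Finset.subset_insert a s), hJe⟩

theorem pf_MFP : T_MFP := by
  intro S _ _ E T A hA hd
  obtain ⟨J, -, hJ⟩ := aux T Finset.univ A hA hd
  exact ⟨J, hJ⟩

end Pool.Agent.H38.HIT
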