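import Pool.Agent.H18.HIT.Basic
import Pool.Agent.H18.HIT.Targets

/-!
# Zariski dense orbits, row NIT: invariant functions of iterates
-/

set_option autoImplicit false

open MvPolynomial
open Pool.Agent.H12.ZD (pmap v O Res DenseOrbit NoInv)
open Pool.Agent.H18.HIT

namespace Pool.Agent.H38.HIT

theorem inj_it {N : ℕ} {k : Type} [CommRing k] {f : Tup N k}
    (h : Function.Injective (aeval f : Po N k →ₐ[k] Po N k)) (n : ℕ) :
    Function.Injective (aeval (it f n) : Po N k →ₐ[k] Po N k) := by
  induction n with
  | zero =>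
    intro a b hab
    rw [it_zero, aeval_X_left_apply, aeval_X_left_apply] at hab
    exact hab
  | succ n ih =>
    intro a b hab
    rw [aeval_it_succ, aeval_it_succ] at hab
    exact h (ih hab)

theorem pf_NIT : T_NIT := by
  intro N k _ _ f m hfi hm hno
  rintro ⟨p, q, hq, hne, he⟩
  let Fr := FractionRing (Po N k)
  let s : Fr →+* Fr := IsFractionRing.map (K := Fr) (L := Fr)
    (j := (aeval f : Po N k →ₐ[k] Po N k).toRingHom) hfi
  have hs : ∀ r : Po N k, s (algebraMap (Po N k) Fr r) = algebraMap (Po N k) Fr (aeval f r) := by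
    intro r
    exact IsLocalization.map_eq _ r
  have hinj : Function.Injective (algebraMap (Po N k) Fr) := IsFractionRing.injective _ _
  have hsit : ∀ (n : ℕ) (r : Po N k), s^[n] (algebraMap (Po N k) Fr r) =
      algebraMap (Po N k) Fr (aeval (it f n) r) := by
    intro n
    induction n with
    | zero =>
      intro r
      rw [it_zero, aeval_X_left_apply]
      rfl
    | succ n ih =>
      intro r
      rw [Function.iterate_succ_apply, hs, ih, aeval_it_succ]
  set φ : Fr := algebraMap (Po N k) Fr p / algebraMap (Po N k) Fr q with hφ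
  have hq' : algebraMap (Po N k) Fr q ≠ 0 := by
    intro h0
    exact hq (hinj (by rw [h0, map_zero]))
  have hdiv : ∀ (n : ℕ) (a b : Fr), s^[n] (a / b) = s^[n] a / s^[n] b := by
    intro n
    induction n with
    | zero => intro a b; rfl
    | succ n ih =>
      intro a b
      rw [Function.iterate_succ_apply, Function.iterate_succ_apply, Function.iterate_succ_apply,
        map_div₀, ih]
  have hqm : algebraMap (Po N k) Fr (aeval (it f m) q) ≠ 0 := by
    intro h0
    apply hq
    apply inj_it hfi m
    rw [map_zero]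
    exact hinj (by rw [h0, map_zero])
  have hφm : s^[m] φ = φ := by
    rw [hφ, hdiv, hsit, hsit, div_eq_div_iff hqm hq', ← map_mul, ← map_mul, he, mul_comm]
  -- the polynomial
  let F : Polynomial Fr := ∏ j ∈ Finset.range m, (Polynomial.X - Polynomial.C (s^[j] φ))
  have hFm : F.Monic := Polynomial.monic_prod_of_monic _ _ fun j _ => Polynomial.monic_X_sub_C _
  have hFs : F.map s = F := by
    show (∏ j ∈ Finset.range m, (Polynomial.X - Polynomial.C (s^[j] φ))).map s = F
    rw [Polynomial.map_prod]
    have h1 : ∀ j, (Polynomial.X - Polynomial.C (s^[j] φ)).map s =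
        Polynomial.X - Polynomial.C (s^[j + 1] φ) := by
      intro j
      rw [Polynomial.map_sub, Polynomial.map_X, Polynomial.map_C, Function.iterate_succ_apply']
    rw [Finset.prod_congr rfl (fun j _ => h1 j)]
    obtain ⟨m', rfl⟩ : ∃ m', m = m' + 1 := ⟨m - 1, by omega⟩
    rw [Finset.prod_range_succ, hφm]
    show _ = ∏ j ∈ Finset.range (m' + 1), (Polynomial.X - Polynomial.C (s^[j] φ))
    rw [Finset.prod_range_succ']
    rfl
  have hcoeff : ∀ n, F.coeff n ∈ Set.range (algebraMap k Fr) := by
    intro n
    have h1 : s (F.coeff n) = F.coeff n := by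
      have := congrArg (fun P : Polynomial Fr => P.coeff n) hFs
      simp only [Polynomial.coeff_map] at this
      exact this
    obtain ⟨a, b, hb, hab⟩ := IsFractionRing.div_surjective (A := Po N k) (F.coeff n)
    have hb0 : b ≠ 0 := nonZeroDivisors.ne_zero hb
    have hb' : algebraMap (Po N k) Fr b ≠ 0 := by
      intro h0
      exact hb0 (hinj (by rw [h0, map_zero]))
    have hfb : algebraMap (Po N k) Fr (aeval f b) ≠ 0 := by
      intro h0
      apply hb0
      apply hfi
      rw [map_zero]
      exact hinj (by rw [h0, map_zero])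
    rw [← hab, map_div₀, hs, hs, div_eq_div_iff hfb hb', ← map_mul, ← map_mul] at h1
    have h2 := hinj h1
    by_contra hcon
    apply hno
    refine ⟨a, b, hb0, fun c hc => hcon ?_, by rw [h2, mul_comm]⟩
    refine ⟨c, ?_⟩
    rw [← hab, hc, map_mul, mul_div_assoc, div_self hb', mul_one]
    rfl
  -- descent
  have hlift : F ∈ Polynomial.lifts (algebraMap k Fr) := by
    rw [Polynomial.lifts_iff_coeff_lifts]
    exact hcoeff
  obtain ⟨F0, hF0⟩ := (Polynomial.mem_lifts F).1 hlift
  have hF0ne : F0 ≠ 0 := by
    rintro rfl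
    rw [Polynomial.map_zero] at hF0
    exact hFm.ne_zero hF0.symm
  have hroot : Polynomial.aeval φ F0 = 0 := by
    rw [← Polynomial.eval_map_algebraMap, hF0]
    show Polynomial.eval φ (∏ j ∈ Finset.range m, (Polynomial.X - Polynomial.C (s^[j] φ))) = 0
    rw [Polynomial.eval_prod]
    refine Finset.prod_eq_zero (Finset.mem_range.2 hm) ?_
    simp
  have hint : IsIntegral k φ := by
    have : IsAlgebraic k φ := ⟨F0, hF0ne, hroot⟩
    exact this.isIntegral
  have hdeg := IsAlgClosed.degree_eq_one_of_irreducible k (minpoly.irreducible hint)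
  obtain ⟨r, hr⟩ := minpoly.mem_range_of_degree_eq_one k φ hdeg
  apply hne r
  apply hinj
  rw [map_mul]
  have h3 : algebraMap (Po N k) Fr (C r) = φ := by
    rw [← hr]; rfl
  rw [h3, hφ, div_mul_cancel₀ _ hq']

end Pool.Agent.H38.HIT
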